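import Mathlib

set_option autoImplicit false

namespace Pool.Agent.Results.MP_54b381_gt.Embed

open Set

universe u

/-- A linearly ordered coarse space: a connected coarse structure with a compatible order. -/
structure IsLOCS {X : Type u} [LinearOrder X] (𝓔 : Set (Set (X × X))) : Prop where
  diag : ∀ E ∈ 𝓔, ∀ x, (x, x) ∈ E
  comp : ∀ E ∈ 𝓔, ∀ F ∈ 𝓔, {p | ∃ y, (p.1, y) ∈ E ∧ (y, p.2) ∈ F} ∈ 𝓔
  inv : ∀ E ∈ 𝓔, {p | (p.2, p.1) ∈ E} ∈ 𝓔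
  sub : ∀ E ∈ 𝓔, ∀ F, (∀ x, (x, x) ∈ F) → F ⊆ E → F ∈ 𝓔
  conn : ∀ x y, ∃ E ∈ 𝓔, (x, y) ∈ E
  compat : ∀ E ∈ 𝓔, ∃ F ∈ 𝓔, ∀ x y, x < y → (x, y) ∉ F → ∀ x', (x, x') ∈ E → x' < y

/-- The coarse structure has a base of entourages all of whose balls are intervals `[a, b]`. -/
def IntervalBase {X : Type u} [LinearOrder X] (𝓔 : Set (Set (X × X))) : Prop :=
  ∀ E ∈ 𝓔, ∃ F ∈ 𝓔, E ⊆ F ∧ ∀ x, ∃ a b, a ≤ b ∧ {y | (x, y) ∈ F} = Icc a b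

variable {X : Type u} [LinearOrder X] {𝓔 : Set (Set (X × X))}

noncomputable section

abbrev Z (X : Type u) [LinearOrder X] := LowerSet X ×ₗ Fin 3

def lo (E : Set (X × X)) (x : X) : Z X := toLex ((upperClosure {y | (x, y) ∈ E}).compl, 1)
def hi (E : Set (X × X)) (x : X) : Z X := toLex (lowerClosure {y | (x, y) ∈ E}, 0)
def pt (x : X) : Z X := toLex (LowerSet.Iio x, 2)
def I (E : Set (X × X)) (x : X) : Set (Z X) := Icc (lo E x) (hi E x)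

lemma mono {E F : Set (X × X)} {x y : X} (h : ∀ a, (x, a) ∈ E → (y, a) ∈ F) : I E x ⊆ I F y :=
  Icc_subset_Icc (Prod.Lex.toLex_mono ⟨UpperSet.compl_le_compl.2 (upperClosure_anti h), le_rfl⟩)
    (Prod.Lex.toLex_mono ⟨lowerClosure_mono h, le_rfl⟩)

lemma mem {E : Set (X × X)} {x y : X} (h : (x, y) ∈ E) : pt y ∈ I E x :=
  ⟨Prod.Lex.toLex_mono ⟨fun z hz => not_le.1 fun k => hz ⟨y, h, k⟩, show (1 : Fin 3) ≤ 2 by decide⟩,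
    Prod.Lex.toLex_le_toLex.2 (.inl (lt_of_le_of_ne (fun z hz => ⟨y, h, le_of_lt hz⟩) fun e =>
      lt_irrefl y (e.ge (show y ∈ lowerClosure {y | (x, y) ∈ E} from ⟨y, h, le_rfl⟩))))⟩

lemma le {E F : Set (X × X)} {x y : X} (h : lo E x ≤ hi F y) :
    ∃ a b, (x, a) ∈ E ∧ (y, b) ∈ F ∧ a ≤ b := by
  rcases Prod.Lex.toLex_le_toLex.1 h with h | h
  · obtain ⟨z, ⟨b, hb, k⟩, l⟩ := exists_of_ssubset (LowerSet.coe_ssubset_coe.2 h)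
    obtain ⟨a, ha, l⟩ := not_not.1 l
    exact ⟨a, b, ha, hb, l.trans k⟩
  · exact absurd h.2 (show ¬ (1 : Fin 3) ≤ 0 by decide)

lemma hull (h : IsLOCS 𝓔) {E : Set (X × X)} (hE : E ∈ 𝓔) :
    ∃ F ∈ 𝓔, ∀ x a b y, (x, a) ∈ E → (x, b) ∈ E → a ≤ y → y ≤ b → (x, y) ∈ F := by
  obtain ⟨F, hF, k⟩ := h.compat E hE
  obtain ⟨G, hG, l⟩ := h.compat _ (h.inv E hE)
  refine ⟨_, h.comp F hF _ (h.comp E hE G hG), fun x a b y ha hb h1 h2 => ?_⟩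
  rcases lt_or_ge x y with c | c
  · exact ⟨y, by_contra fun n => (k x y c n b hb).not_ge h2, y, h.diag E hE y, h.diag G hG y⟩
  · refine ⟨x, h.diag F hF x, a, ha, ?_⟩
    rcases h1.eq_or_lt with rfl | d
    exacts [h.diag G hG _, by_contra fun n => (l a y d n x ha).not_ge c]

lemma key (h : IsLOCS 𝓔) {E : Set (X × X)} (hE : E ∈ 𝓔) :
    ∃ F ∈ 𝓔, ∀ x y z, z ∈ I E x → z ∈ I E y → ∀ a, (y, a) ∈ E → (x, a) ∈ F := by
  obtain ⟨H, hH, k⟩ := hull h hE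
  refine ⟨_, h.comp H hH _ (h.comp _ (h.inv H hH) E hE), fun x y z hx hy c hc => ?_⟩
  obtain ⟨a, b, ha, hb, l⟩ := le (hx.1.trans hy.2)
  obtain ⟨b', a', hb', ha', l'⟩ := le (hy.1.trans hx.2)
  rcases le_total a b' with d | d
  · exact ⟨b', k x a a' b' ha ha' d l', y, k y b' b' b' hb' hb' le_rfl le_rfl, hc⟩
  · exact ⟨a, k x a a a ha ha le_rfl le_rfl, y, k y b' b a hb' hb d l, hc⟩

def hat (S : Set (Z X)) (E : Set (X × X)) : Set (S × S) :=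
  {p | p.1 = p.2 ∨ ∃ x, p.1.1 ∈ I E x ∧ p.2.1 ∈ I E x}

end

/-- Every linearly ordered coarse space is asymorphic, by an order embedding, to a subspace of a
linearly ordered coarse space with an interval base. -/
theorem result (X : Type u) [LinearOrder X] (𝓔 : Set (Set (X × X))) (h : IsLOCS 𝓔) :
    ∃ (Y : Type u) (_ : LinearOrder Y) (𝓕 : Set (Set (Y × Y))) (f : X → Y),
      IsLOCS 𝓕 ∧ IntervalBase 𝓕 ∧ StrictMono f ∧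
      (∀ E ∈ 𝓔, ∃ F ∈ 𝓕, ∀ x y, (x, y) ∈ E → (f x, f y) ∈ F) ∧
      ∀ F ∈ 𝓕, ∃ E ∈ 𝓔, ∀ x y, (f x, f y) ∈ F → (x, y) ∈ E := by
  classical
  let S : Set (Z X) := {z | ∃ E ∈ 𝓔, ∃ x, z ∈ I E x}
  have hm : ∀ E ∈ 𝓔, hat S E ∈ {D | (∀ z, (z, z) ∈ D) ∧ ∃ E ∈ 𝓔, D ⊆ hat S E} :=
    fun E hE => ⟨fun _ => .inl rfl, E, hE, subset_rfl⟩
  have ib : IntervalBase {D | (∀ z, (z, z) ∈ D) ∧ ∃ E ∈ 𝓔, D ⊆ hat S E} := by
    rintro D ⟨-, E, hE, hD⟩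
    obtain ⟨F, hF, k⟩ := key h hE
    have : ∀ z : S, ∃ a b : S, z ∈ Icc a b ∧ (∀ w, (z, w) ∈ hat S E → w ∈ Icc a b) ∧
        ∀ w ∈ Icc a b, (z, w) ∈ hat S F := fun z => by
      by_cases c : ∃ x, z.1 ∈ I E x
      · obtain ⟨x, hx⟩ := c
        have m := mono (k x x z hx hx) hx
        refine ⟨⟨_, F, hF, x, left_mem_Icc.2 (m.1.trans m.2)⟩,
          ⟨_, F, hF, x, right_mem_Icc.2 (m.1.trans m.2)⟩, m, ?_, fun w hw => .inr ⟨x, m, hw⟩⟩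
        rintro w (e | ⟨y, h1, h2⟩)
        exacts [(show z = w from e) ▸ m, mono (k x y z hx h1) h2]
      · refine ⟨z, z, by simp, ?_, fun w hw => .inl (by simpa [eq_comm] using hw)⟩
        rintro w (e | ⟨y, h1, -⟩)
        exacts [by simpa [eq_comm] using e, (c ⟨y, h1⟩).elim]
    choose a b h1 h2 h3 using this
    exact ⟨{p | p.2 ∈ Icc (a p.1) (b p.1)}, ⟨h1, F, hF, fun p hp => h3 _ _ hp⟩,
      fun p hp => h2 _ _ (hD hp), fun z => ⟨a z, b z, (h1 z).1.trans (h1 z).2, rfl⟩⟩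
  have un : ∀ E ∈ 𝓔, ∀ F ∈ 𝓔, ∃ G ∈ 𝓔, E ⊆ G ∧ F ⊆ G := fun E hE F hF =>
    ⟨_, h.comp E hE F hF, fun p k => ⟨_, k, h.diag F hF _⟩, fun p k => ⟨_, h.diag E hE _, k⟩⟩
  refine ⟨S, inferInstance, {D | (∀ z, (z, z) ∈ D) ∧ ∃ E ∈ 𝓔, D ⊆ hat S E}, fun x => ⟨pt x, let ⟨E, hE, k⟩ := h.conn x x; ⟨E, hE, x, mem k⟩⟩,
    ⟨fun _ k => k.1, ?_, ?_, fun D ⟨_, E, hE, k⟩ F a b => ⟨a, E, hE, b.trans k⟩, ?_, fun D hD => ?_⟩,
    ib, fun x y l => Prod.Lex.toLex_lt_toLex.2 (.inl (LowerSet.Iio_strictMono _ l)),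
    fun E hE => ⟨_, hm E hE, fun x y k => .inr ⟨x, mem (h.diag E hE x), mem k⟩⟩, ?_⟩
  · rintro D ⟨d, E, hE, k⟩ D' ⟨d', E', hE', k'⟩
    obtain ⟨G, hG, a, b⟩ := un E hE E' hE'
    obtain ⟨F, hF, l⟩ := key h hG
    refine ⟨fun z => ⟨z, d z, d' z⟩, F, hF, fun p ⟨w, h1, h2⟩ => ?_⟩
    have s : ∀ x z, z ∈ I G x → z ∈ I F x := fun x z m => mono (l x x z m m) m
    rcases k h1 with e | ⟨x, h1, h3⟩ <;> rcases k' h2 with e' | ⟨y, h2, h4⟩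
    · exact .inl (e.trans e')
    · exact .inr ⟨y, s _ _ (mono (fun _ m => b m) (e ▸ h2)), s _ _ (mono (fun _ m => b m) h4)⟩
    · exact .inr ⟨x, s _ _ (mono (fun _ m => a m) h1), s _ _ (mono (fun _ m => a m) (e' ▸ h3))⟩
    · exact .inr ⟨x, s _ _ (mono (fun _ m => a m) h1), mono (l x y w (mono (fun _ m => a m) h3)
        (mono (fun _ m => b m) h2)) (mono (fun _ m => b m) h4)⟩
  · rintro D ⟨d, E, hE, k⟩
    exact ⟨d, E, hE, fun p m => (k m).imp Eq.symm fun ⟨x, a, b⟩ => ⟨x, b, a⟩⟩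
  · rintro ⟨z, E, hE, x, hx⟩ ⟨w, F, hF, y, hy⟩
    obtain ⟨G, hG, k⟩ := h.conn x y
    obtain ⟨H, hH, a, b⟩ := un E hE _ (h.comp G hG F hF)
    exact ⟨_, hm H hH, .inr ⟨x, mono (fun _ m => a m) hx, mono (fun _ m => b ⟨y, k, m⟩) hy⟩⟩
  · obtain ⟨F, hF, k, l⟩ := ib D hD
    refine ⟨F, hF, fun x y xy n x' m => not_le.1 fun c => n ?_⟩
    obtain ⟨a, b, -, e⟩ := l x
    exact e.ge ⟨(e.le (hF.1 x)).1.trans xy.le, c.trans (e.le (k m)).2⟩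
  · rintro D ⟨-, E, hE, k⟩
    obtain ⟨F, hF, l⟩ := key h hE
    refine ⟨_, h.comp _ (h.inv F hF) F hF, fun x y m => ?_⟩
    have s : ∀ x z, pt x ∈ I E z → (z, x) ∈ F := fun x z m =>
      l z x _ m (mem (h.diag E hE x)) x (h.diag E hE x)
    rcases k m with e | ⟨z, a, b⟩
    · exact ⟨y, s x y ((show pt x = pt y from congrArg Subtype.val e) ▸ mem (h.diag E hE y)),
        h.diag F hF y⟩
    · exact ⟨z, s x z a, s y z b⟩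

end Pool.Agent.Results.MP_54b381_gt.Embed
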